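import Pool.Agent.Helper70.ML.St

/-!
# Project ML, module NCM: lifts of disjoint 3-cycles which do not commute
-/

set_option autoImplicit false

namespace Pool.Agent.Helper98.ML

open Pool.Agent.Helper70.ML Pool.Agent.Helper75.MX
open scoped commutatorElement Nat

theorem ncm_alg {P : Type} [Group P] {p s r : P} (hp : p * p = 1) (hr : r * r = 1) (hs : s * s = 1)
    (h1 : Commute s p) (h2 : Commute s r) : (p * s) * (p * r) * (p * s)⁻¹ = (p * r)⁻¹ := by
  have hp' : p⁻¹ = p := inv_eq_of_mul_eq_one_left hp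
  have hr' : r⁻¹ = r := inv_eq_of_mul_eq_one_left hr
  have hs' : s⁻¹ = s := inv_eq_of_mul_eq_one_left hs
  rw [mul_inv_rev, mul_inv_rev, hp', hr', hs']
  calc p * s * (p * r) * (s * p) = p * (s * p) * (r * s) * p := by group
    _ = p * (p * s) * (s * r) * p := by rw [h1.eq, h2.eq]
    _ = (p * p) * (s * s) * (r * p) := by group
    _ = r * p := by rw [hp, hs]; group

theorem ncm_t {n : ℕ} {c d : Equiv.Perm (Fin n)} (hc : c.IsThreeCycle) (hd : d.IsThreeCycle)
    (hcd : c.Disjoint d) : ∃ t : Equiv.Perm (Fin n), t ∈ alternatingGroup (Fin n) ∧ t * t = 1 ∧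
      t * c * t⁻¹ = c⁻¹ := by
  have hc3 := hc.card_support
  have hd3 := hd.card_support
  obtain ⟨a, ha⟩ : c.support.Nonempty := by
    rw [← Finset.card_pos, hc3]
    norm_num
  have hcs := (hc.eq_swap_mul_swap_iff_mem_support).2 ha
  have hsup := (hc.support_eq_iff_mem_support).2 ha
  have hnd := (hc.nodup_iff_mem_support).2 ha
  obtain ⟨b, hb⟩ : ∃ b, b = c a := ⟨_, rfl⟩
  obtain ⟨e, he⟩ : ∃ e, e = c (c a) := ⟨_, rfl⟩
  rw [← he, ← hb] at hcs hsup hnd
  obtain ⟨l, hl, m, hm, hlm⟩ : ∃ l ∈ d.support, ∃ m ∈ d.support, l ≠ m := by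
    apply Finset.one_lt_card.1
    rw [hd3]
    norm_num
  have hdis := Equiv.Perm.disjoint_iff_disjoint_support.1 hcd
  have hal : ∀ x ∈ c.support, ∀ y ∈ d.support, x ≠ y := by
    intro x hx y hy hxy
    subst hxy
    exact Finset.disjoint_left.1 hdis hx hy
  have hA : a ∈ c.support := ha
  have hB : b ∈ c.support := by rw [hsup]; simp
  have hE : e ∈ c.support := by rw [hsup]; simp
  have hab : a ≠ b := by
    intro h
    rw [h] at hnd
    simp at hnd
  have hbe : b ≠ e := by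
    intro h
    rw [h] at hnd
    simp at hnd
  have hsw : ∀ x y : Fin n, Equiv.swap x y * Equiv.swap x y = 1 := fun x y => Equiv.swap_mul_self x y
  have hcomm : ∀ x y : Fin n, x ∈ c.support → y ∈ c.support →
      Commute (Equiv.swap l m) (Equiv.swap x y) := by
    intro x y hx hy
    apply Equiv.Perm.Disjoint.commute
    intro z
    by_cases hz : z = l ∨ z = m
    · right
      have h1 : z ∈ d.support := by
        rcases hz with rfl | rfl
        · exact hl
        · exact hm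
      exact Equiv.swap_apply_of_ne_of_ne (fun h => hal x hx z h1 h.symm) (fun h => hal y hy z h1 h.symm)
    · left
      push Not at hz
      exact Equiv.swap_apply_of_ne_of_ne hz.1 hz.2
  refine ⟨Equiv.swap a b * Equiv.swap l m, ?_, ?_, ?_⟩
  · rw [Equiv.Perm.mem_alternatingGroup, Equiv.Perm.sign_mul, Equiv.Perm.sign_swap hab,
      Equiv.Perm.sign_swap hlm]
    decide
  · have h1 := (hcomm a b hA hB).eq
    calc Equiv.swap a b * Equiv.swap l m * (Equiv.swap a b * Equiv.swap l m)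
        = Equiv.swap a b * (Equiv.swap l m * Equiv.swap a b) * Equiv.swap l m := by
          simp only [mul_assoc]
      _ = Equiv.swap a b * (Equiv.swap a b * Equiv.swap l m) * Equiv.swap l m := by rw [h1]
      _ = (Equiv.swap a b * Equiv.swap a b) * (Equiv.swap l m * Equiv.swap l m) := by
          simp only [mul_assoc]
      _ = 1 := by rw [hsw, hsw, one_mul]
  · rw [hcs]
    exact ncm_alg (hsw a b) (hsw b e) (hsw l m) (hcomm a b hA hB) (hcomm b e hB hE)

theorem hNCM (hLIF : StLIF) : StNCM := by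
  rintro n G _ _ ψ hψ hker hodd ⟨x, y, hx, hy, hxy, hne⟩
  obtain ⟨l1, l2, l3, -⟩ := hLIF G (alternatingGroup (Fin n)) ψ hψ hker hodd
  obtain ⟨t, ht, htt, htc⟩ := ncm_t hx hy hxy
  obtain ⟨T, hT, hTT⟩ := l1 ⟨t, ht⟩ (Subtype.ext htt)
  obtain ⟨w, hw, hTw⟩ := l2 x T hTT (by
    rw [hT]
    exact Subtype.ext htc)
  have hwc : ∀ g : G, g * w = w * g := Subgroup.mem_center_iff.1 (hker hw)
  have hψw : ψ w = 1 := (MonoidHom.mem_ker).1 hw
  have ha3 : (x * w) ^ 3 = 1 := by
    apply l3 (x * w) T hTw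
    rw [map_mul, hψw, mul_one]
    apply Subtype.ext
    rw [SubgroupClass.coe_pow, OneMemClass.coe_one, ← hx.orderOf]
    exact pow_orderOf_eq_one _
  obtain ⟨a, ha⟩ : ∃ a, a = x * w := ⟨_, rfl⟩
  obtain ⟨z, hz⟩ : ∃ z, z = a * y * a⁻¹ * y⁻¹ := ⟨_, rfl⟩
  rw [← ha] at hTw ha3
  have hzx : z = x * y * x⁻¹ * y⁻¹ := by
    rw [hz, ha, mul_inv_rev]
    calc x * w * y * (w⁻¹ * x⁻¹) * y⁻¹ = x * (w * y) * w⁻¹ * x⁻¹ * y⁻¹ := by group
      _ = x * (y * w) * w⁻¹ * x⁻¹ * y⁻¹ := by rw [hwc y]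
      _ = x * y * x⁻¹ * y⁻¹ := by group
  have hcomm : Commute (ψ x) (ψ y) := Subtype.ext hxy.commute.eq
  have hzker : z ∈ ψ.ker := by
    rw [MonoidHom.mem_ker, hzx, map_mul, map_mul, map_mul, map_inv, map_inv, hcomm.eq]
    group
  have hzcen : z ∈ Subgroup.center G := hker hzker
  have hzc : ∀ g : G, g * z = z * g := Subgroup.mem_center_iff.1 hzcen
  have hz1 : z ≠ 1 := by
    intro h
    apply hne
    rw [hzx] at h
    calc x * y = (x * y * x⁻¹ * y⁻¹) * (y * x) := by group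
      _ = y * x := by rw [h, one_mul]
  have hz3 : z ^ 3 = 1 := by
    have h1 : y * a⁻¹ * y⁻¹ = a⁻¹ * z := by
      rw [hz]
      group
    have h2 : (y * a⁻¹ * y⁻¹) ^ 3 = 1 := by
      rw [conj_pow, inv_pow, ha3]
      group
    rw [h1, (show Commute a⁻¹ z from hzc a⁻¹).mul_pow, inv_pow, ha3, inv_one, one_mul] at h2
    exact h2
  have hcard : Nat.card (Subgroup.zpowers z) = 3 := by
    rw [Nat.card_zpowers]
    exact orderOf_eq_prime hz3 hz1
  have : Fact (Nat.Prime 3) := ⟨Nat.prime_three⟩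
  refine ⟨Subgroup.zpowers z, ?_, ?_, 2 + 2 * cost 3, ?_, ?_⟩
  · refine ⟨fun g hg u => ?_⟩
    have hgc : g ∈ Subgroup.center G := by
      have : Subgroup.zpowers z ≤ Subgroup.center G := by rwa [Subgroup.zpowers_le]
      exact this hg
    have h1 : u * g * u⁻¹ = g := by
      rw [Subgroup.mem_center_iff.1 hgc u]
      group
    rw [h1]
    exact hg
  · intro h
    rw [Subgroup.zpowers_eq_bot] at h
    exact hz1 h
  · rw [hcard]
    exact cost_bound Nat.prime_three (by norm_num)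
  · intro F
    obtain ⟨F', hr, hs⟩ := stage_comm (q := 3) (a := a) (t := T) (n := y) ha3 hTw hTT
      (by rw [← hz]; exact hzcen) F
    refine ⟨F', hr, ?_⟩
    rw [Subgroup.zpowers_le, hz]
    exact hs

end Pool.Agent.Helper98.ML
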